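import Pool.Agent.Y840.CI.Top
import Pool.Agent.Y843.HG.Core

/-!
# Chen's theorem for tuples of shifts, in intervals, uniformly in the shifts
-/

set_option autoImplicit false

namespace Pool.Agent.Y840.CT

open Finset Filter
open Pool.Agent.Y843.HS (Pr VV Pr_mem Pr_prime VV_split)
open Pool.Agent.Y843.HG (Adm Z0 SP V1 V1_bounds)
open Pool.Agent.Y843.CH (hr Dat GD hr_lt hr_cast hr_eq_iff hr_zero_iff)
open Pool.Agent.Y840.CI (GI chenI)

/-- the number of residue classes modulo `q` represented by `0` and the elements of `H` -/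
def rho (H : Finset ℤ) (q : ℕ) : ℕ := ((insert 0 H).image (fun h : ℤ => h % q)).card

/-- the nonzero classes of the elements of `H` modulo `q` -/
def OmH (H : Finset ℤ) (q : ℕ) : Finset ℕ := (H.image (fun h => hr h q)).erase 0

theorem Z0_OmH (H : Finset ℤ) (q : ℕ) : Z0 (OmH H) q = insert 0 (H.image (fun h => hr h q)) := by
  unfold Z0 OmH
  ext x
  simp only [mem_insert, mem_erase]
  tauto

theorem card_Z0 (H : Finset ℤ) {q : ℕ} (hq : 0 < q) : (Z0 (OmH H) q).card = rho H q := by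
  rw [Z0_OmH]
  unfold rho
  rw [image_insert, Int.zero_emod]
  have h1 : (insert 0 (H.image (fun h : ℤ => h % q))) =
      (insert 0 (H.image (fun h => hr h q))).image (fun c : ℕ => (c : ℤ)) := by
    rw [image_insert, image_image]
    congr 1
    apply image_congr
    intro h _
    simp only [Function.comp]
    exact (hr_cast h hq).symm
  rw [h1, card_image_of_injective _ Nat.cast_injective]

theorem OmH_card (H : Finset ℤ) {q : ℕ} (hq : 0 < q) : (OmH H q).card + 1 = rho H q := by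
  rw [← card_Z0 H hq]
  unfold Z0
  rw [card_insert_of_notMem]
  unfold OmH
  simp

theorem OmH_le (H : Finset ℤ) (q : ℕ) : (OmH H q).card ≤ H.card :=
  (card_le_card (erase_subset _ _)).trans card_image_le

theorem dat {r Y : ℕ} {H : Finset ℤ} (hr' : H.card ≤ r) (hloc : ∀ q : ℕ, q.Prime → rho H q < q)
    {h0 : ℤ} (h0H : h0 ∈ H) : Dat r Y h0 (OmH H) := by
  constructor
  · intro q hq
    have hqp := Pr_prime hq
    refine ⟨(OmH_le H q).trans hr', ?_, ?_, ?_⟩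
    · rw [OmH_card H hqp.pos]
      exact hloc q hqp
    · unfold OmH
      simp
    · intro c hc
      unfold OmH at hc
      rw [mem_erase, mem_image] at hc
      obtain ⟨_, h, _, rfl⟩ := hc
      exact hr_lt h hqp.pos
  · intro q hq
    rw [Z0_OmH]
    exact mem_insert_of_mem (mem_image_of_mem _ h0H)

/-- `k ≠ 0` is up to the sign a product of at most `t` primes, all of them larger than `y` -/
def Rough (t : ℕ) (y : ℝ) (k : ℤ) : Prop :=
  k ≠ 0 ∧ k.natAbs.primeFactorsList.length ≤ t ∧ ∀ q : ℕ, q.Prime → (q : ℤ) ∣ k → y < q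

theorem VV_le (H : Finset ℤ) (hloc : ∀ q : ℕ, q.Prime → rho H q < q) {Y X : ℕ} (hYX : Y ≤ X) :
    ∏ q ∈ (Icc 1 X).filter Nat.Prime, (1 - (rho H q : ℝ) / q) ≤ VV (Z0 (OmH H)) 0 Y := by
  have h1 : ∏ q ∈ (Icc 1 X).filter Nat.Prime, (1 - (rho H q : ℝ) / q) = VV (Z0 (OmH H)) 0 X := by
    unfold VV
    apply prod_congr
    · ext q
      rw [Pr_mem, mem_filter, mem_Icc]
      constructor
      · rintro ⟨⟨a, b⟩, c⟩
        exact ⟨⟨c.pos, b⟩, c⟩
      · rintro ⟨⟨a, b⟩, c⟩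
        exact ⟨⟨c.pos, b⟩, c⟩
    · intro q hq
      rw [card_Z0 H (Pr_prime hq).pos]
  rw [h1, ← VV_split (Z0 (OmH H)) (Nat.zero_le Y) hYX]
  have h0 : ∀ q : ℕ, q.Prime → 0 ≤ 1 - ((Z0 (OmH H) q).card : ℝ) / q := by
    intro q hq
    have h2 : (0 : ℝ) < q := by exact_mod_cast hq.pos
    rw [sub_nonneg, div_le_one h2, card_Z0 H hq.pos]
    exact_mod_cast (hloc q hq).le
  have h2 : 0 ≤ VV (Z0 (OmH H)) 0 Y := prod_nonneg fun q hq => h0 q (Pr_prime hq)
  have h3 : VV (Z0 (OmH H)) Y X ≤ 1 := by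
    unfold VV
    apply prod_le_one
    · intro q hq
      exact h0 q (Pr_prime hq)
    · intro q hq
      have : (0 : ℝ) ≤ ((Z0 (OmH H) q).card : ℝ) / q := by positivity
      linarith
  exact mul_le_of_le_one_right h2 h3

theorem length_le {t : ℕ} {y B : ℝ} {k : ℕ} (hk : k ≠ 0) (hy : 1 ≤ y) (hB : (k : ℝ) ≤ B)
    (hyB : B < y ^ (t + 1)) (h : ∀ q : ℕ, q.Prime → q ∣ k → y < q) : k.primeFactorsList.length ≤ t := by
  by_contra hcon
  push Not at hcon
  have h1 : ∀ l : List ℕ, (∀ q ∈ l, y < (q : ℝ)) → y ^ l.length ≤ ((l.prod : ℕ) : ℝ) := by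
    intro l
    induction l with
    | nil => intro _; simp
    | cons a l ih =>
      intro hl
      rw [List.length_cons, List.prod_cons, pow_succ, Nat.cast_mul, mul_comm]
      have h2 := ih fun q hq => hl q (List.mem_cons_of_mem _ hq)
      have h3 := (hl a List.mem_cons_self).le
      have : 0 ≤ y ^ l.length := by positivity
      gcongr
  have h2 := h1 k.primeFactorsList fun q hq => h q (Nat.prime_of_mem_primeFactorsList hq)
    (Nat.dvd_of_mem_primeFactorsList hq)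
  rw [Nat.prod_primeFactorsList hk] at h2
  have h3 : y ^ (t + 1) ≤ y ^ k.primeFactorsList.length := pow_le_pow_right₀ hy hcon
  linarith

open Classical in
/-- the primes `p > X ^ (1/t)` of `(A, B]` for which `h₀ - p` is a product of at most two primes `> X ^ (1/9)` and
all `h - p`, `h ∈ H`, are products of at most `t` primes `> X ^ (1/t)` -/
noncomputable def Good (t X A B : ℕ) (H : Finset ℤ) (h0 : ℤ) : Finset ℕ :=
  (Ioc A B).filter (fun p : ℕ => p.Prime ∧ (X : ℝ) ^ (1 / (t : ℝ)) < p ∧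
    Rough 2 ((X : ℝ) ^ (1 / 9 : ℝ)) (h0 - p) ∧
    ∀ h ∈ H, Rough t ((X : ℝ) ^ (1 / (t : ℝ))) (h - p))

/-- the sieve product -/
noncomputable def Vp (H : Finset ℤ) (X : ℕ) : ℝ :=
  ∏ q ∈ (Icc 1 X).filter Nat.Prime, (1 - (rho H q : ℝ) / q)

/-- the elements of `H` are nonzero and at most `X`, and there is no local obstruction -/
structure Sys (r X : ℕ) (H : Finset ℤ) : Prop where
  card : H.card ≤ r
  size : ∀ h ∈ H, h ≠ 0 ∧ |h| ≤ X
  loc : ∀ q : ℕ, q.Prime → rho H q < q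

/-- the number `t` of `genI` belongs to the sieve level `X ^ (1/t)` -/
def Lev (r t : ℕ) (c : ℝ) : Prop := ∀ θ : ℝ, 0 < θ → ∃ X₀ : ℕ, ∀ X : ℕ, X₀ ≤ X →
    ∀ H : Finset ℤ, Sys r X H → ∀ h0 ∈ H, ∀ A B : ℕ, B ≤ X → θ * X ≤ (B : ℝ) - A →
      c * ((B : ℝ) - A) * VV (Z0 (OmH H)) 0 ⌊(X : ℝ) ^ (1 / (t : ℝ))⌋₊ ≤ ((Good t X A B H h0).card : ℝ)

theorem Lev_ex (r : ℕ) : ∃ t : ℕ, 1 ≤ t ∧ ∃ c : ℝ, 0 < c ∧ Lev r t c := by
  classical
  obtain ⟨t, ht, c, hc, hch'⟩ := chenI r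
  have ht0 : (0 : ℝ) < t := by exact_mod_cast ht
  refine ⟨t, ht, c, hc, fun θ hθ => ?_⟩
  obtain ⟨X₀, hch⟩ := hch' θ hθ
  -- thresholds
  have e1 : ∀ᶠ X : ℕ in atTop, (2 : ℝ) < (X : ℝ) ^ (1 / (t : ℝ)) :=
    ((tendsto_rpow_atTop (show (0 : ℝ) < 1 / t by positivity)).comp tendsto_natCast_atTop_atTop).eventually
      (eventually_gt_atTop 2)
  have e2 : ∀ᶠ X : ℕ in atTop, (X : ℝ) ^ (1 / 9 : ℝ) < (Nat.sqrt X : ℝ) ^ (1 / 4 : ℝ) := by
    have h1 : ∀ᶠ X : ℕ in atTop, (2 : ℝ) < (X : ℝ) ^ (1 / 18 : ℝ) :=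
      ((tendsto_rpow_atTop (show (0 : ℝ) < 1 / 18 by norm_num)).comp
        tendsto_natCast_atTop_atTop).eventually (eventually_gt_atTop 2)
    filter_upwards [h1, eventually_ge_atTop 1] with X hX hX1
    have hX0 : (0 : ℝ) < X := by exact_mod_cast hX1
    have h2 : (X : ℝ) ^ (4 / 9 : ℝ) < Nat.sqrt X := by
      have h3 : (X : ℝ) < ((Nat.sqrt X : ℝ) + 1) ^ 2 := by
        have := Nat.lt_succ_sqrt' X
        exact_mod_cast this
      have h4 : (X : ℝ) ^ (1 / 2 : ℝ) < Nat.sqrt X + 1 := by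
        have h5 := Real.rpow_lt_rpow hX0.le h3 (show (0 : ℝ) < 1 / 2 by norm_num)
        rwa [← Real.rpow_natCast, ← Real.rpow_mul (by positivity), show ((2 : ℕ) : ℝ) * (1 / 2) = 1 by norm_num,
          Real.rpow_one] at h5
      have h5 : (X : ℝ) ^ (1 / 2 : ℝ) = (X : ℝ) ^ (4 / 9 : ℝ) * (X : ℝ) ^ (1 / 18 : ℝ) := by
        rw [← Real.rpow_add hX0]
        norm_num
      have h6 : (1 : ℝ) ≤ (X : ℝ) ^ (4 / 9 : ℝ) := Real.one_le_rpow (by exact_mod_cast hX1) (by norm_num)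
      nlinarith
    have h3 := Real.rpow_lt_rpow (by positivity) h2 (show (0 : ℝ) < 1 / 4 by norm_num)
    rwa [← Real.rpow_mul hX0.le, show (4 / 9 : ℝ) * (1 / 4) = 1 / 9 by norm_num] at h3
  obtain ⟨X₁, h1⟩ := eventually_atTop.1 (e1.and e2)
  refine ⟨max (max X₀ X₁) 2, ?_⟩
  intro X hX H hS h0 h0H A B hBX hAB
  obtain ⟨hHr, hH, hloc⟩ := hS
  have hX2 : 2 ≤ X := le_trans (le_max_right _ _) hX
  have hXr : (1 : ℝ) ≤ X := by exact_mod_cast (by omega : 1 ≤ X)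
  obtain ⟨g1, g2⟩ := h1 X (le_trans (le_trans (le_max_right _ _) (le_max_left _ _)) hX)
  set Y := ⌊(X : ℝ) ^ (1 / (t : ℝ))⌋₊ with hY
  have h2 : c * ((B : ℝ) - A) * VV (Z0 (OmH H)) 0 Y ≤ ((GI A B (Nat.sqrt X) X Y h0 (OmH H)).card : ℝ) := by
    apply hch X (le_trans (le_trans (le_max_left _ _) (le_max_left _ _)) hX) h0 (hH h0 h0H).1 _ _
      (dat hHr hloc h0H) A B hBX hAB
    have := (hH h0 h0H).2
    rw [Int.abs_eq_natAbs] at this
    exact_mod_cast this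
  refine h2.trans ?_
  rw [Nat.cast_le]
  apply card_le_card
  intro p hp
  unfold GI GD SP at hp
  rw [mem_filter, mem_filter, mem_filter, mem_Ioc] at hp
  obtain ⟨⟨⟨⟨p1, p2⟩, p3, p4⟩, p5, p6, p7⟩, pA, pB⟩ := hp
  -- every shifted number is free of small primes
  have hsm : ∀ h ∈ H, ∀ q : ℕ, q.Prime → (q : ℤ) ∣ h - p → (X : ℝ) ^ (1 / (t : ℝ)) < q := by
    intro h hh q hq hd
    by_contra hcon
    push Not at hcon
    have hqY : q ≤ Y := Nat.le_floor hcon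
    have h3 := p4 q (Pr_mem.2 ⟨⟨hq.pos, hqY⟩, hq⟩)
    apply h3
    rw [Z0_OmH]
    apply mem_insert_of_mem
    rw [mem_image]
    refine ⟨h, hh, ?_⟩
    have h4 : hr h q = hr (p : ℤ) q := by
      rw [hr_eq_iff _ _ hq.pos]
      exact (Int.modEq_iff_dvd.2 hd).symm
    rw [h4, Pool.Agent.Y843.CH.hr_nat p hq.pos]
  have hne : ∀ h ∈ H, h - (p : ℤ) ≠ 0 := by
    intro h hh h3
    have h4 := hsm h hh 2 Nat.prime_two (by rw [h3]; exact dvd_zero _)
    push_cast at h4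
    linarith
  unfold Good
  rw [mem_filter, mem_Ioc]
  refine ⟨⟨pA, pB⟩, p3, ?_, ⟨sub_ne_zero.2 p5, p6, ?_⟩, ?_⟩
  · by_contra hcon
    push Not at hcon
    have hqY : p ≤ Y := Nat.le_floor hcon
    have h3 := p4 p (Pr_mem.2 ⟨⟨p3.pos, hqY⟩, p3⟩)
    apply h3
    rw [Z0_OmH, Nat.mod_self]
    exact mem_insert_self _ _
  · intro q hq hd
    have h3 := p7 q hq (Int.natCast_dvd.1 hd)
    linarith
  · intro h hh
    refine ⟨hne h hh, ?_, hsm h hh⟩
    refine length_le (B := 2 * X) (y := (X : ℝ) ^ (1 / (t : ℝ))) ?_ ?_ ?_ ?_ ?_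
    · rw [Int.natAbs_ne_zero]
      exact hne h hh
    · linarith
    · have h3 : |h - (p : ℤ)| ≤ 2 * X := by
        have h4 := (hH h hh).2
        have h5 : |(p : ℤ)| = p := abs_of_nonneg (by positivity)
        have h6 : |h - (p : ℤ)| ≤ |h| + |(p : ℤ)| := abs_sub _ _
        have h7 : (p : ℤ) ≤ X := by exact_mod_cast p2
        omega
      rw [Int.abs_eq_natAbs] at h3
      exact_mod_cast h3
    · have h3 : ((X : ℝ) ^ (1 / (t : ℝ))) ^ t = X := by
        rw [← Real.rpow_natCast, ← Real.rpow_mul (by positivity), one_div, inv_mul_cancel₀ ht0.ne', Real.rpow_one]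
      rw [pow_succ, h3, mul_comm]
      exact mul_lt_mul_of_pos_left g1 (by linarith)
    · intro q hq hd
      exact hsm h hh q hq (Int.natCast_dvd.2 hd)

theorem Vp_le (t : ℕ) (ht : 1 ≤ t) (H : Finset ℤ) (hloc : ∀ q : ℕ, q.Prime → rho H q < q) {X : ℕ}
    (hX : 1 ≤ X) : Vp H X ≤ VV (Z0 (OmH H)) 0 ⌊(X : ℝ) ^ (1 / (t : ℝ))⌋₊ := by
  have ht0 : (0 : ℝ) < t := by exact_mod_cast ht
  have hXr : (1 : ℝ) ≤ X := by exact_mod_cast hX
  apply VV_le H hloc
  have h2 : (X : ℝ) ^ (1 / (t : ℝ)) ≤ X := by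
    have := Real.rpow_le_rpow_of_exponent_le hXr (show 1 / (t : ℝ) ≤ 1 by
      rw [div_le_one ht0]
      exact_mod_cast ht)
    rwa [Real.rpow_one] at this
  have := Nat.floor_le_floor h2
  rwa [Nat.floor_natCast] at this

/-- **Chen's theorem for tuples in intervals**, uniformly in the shifts, and the progressions: the
subsets `S` of the set `Rg` of all the primes `p ≤ X` with all `h - p` free of prime factors
`≤ X ^ (1/t)` with at least `δ X V` elements contain narrow progressions. -/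
theorem genI (r : ℕ) : ∃ t : ℕ, 1 ≤ t ∧ ∃ c : ℝ, 0 < c ∧
    (∀ θ : ℝ, 0 < θ → ∃ X₀ : ℕ, ∀ X : ℕ, X₀ ≤ X → ∀ H : Finset ℤ, Sys r X H → ∀ h0 ∈ H,
      ∀ A B : ℕ, B ≤ X → θ * X ≤ (B : ℝ) - A →
      c * ((B : ℝ) - A) * Vp H X ≤ ((Good t X A B H h0).card : ℝ)) ∧
    (∀ k : ℕ, ∀ θ δ : ℝ, 0 < θ → 0 < δ → ∃ D X₀ : ℕ, ∀ X : ℕ, X₀ ≤ X → ∀ H : Finset ℤ, Sys r X H → ∀ h0 ∈ H,
      ∀ A B : ℕ, B ≤ X → θ * X ≤ (B : ℝ) - A →
      ∀ S : Finset ℕ, S ⊆ Good t X A B H h0 → δ * ((Good t X A B H h0).card : ℝ) ≤ S.card →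
        ∃ a d : ℕ, 1 ≤ d ∧ (d : ℝ) ≤ Real.log X ^ D ∧ ∀ j < k, a + j * d ∈ S) := by
  classical
  obtain ⟨t, ht, c, hc, h⟩ := Lev_ex r
  have ht0 : (0 : ℝ) < t := by exact_mod_cast ht
  refine ⟨t, ht, c, hc, ?_, ?_⟩
  · intro θ hθ
    obtain ⟨X₀, h1⟩ := h θ hθ
    refine ⟨max X₀ 1, fun X hX H hS h0 h0H A B hBX hAB => ?_⟩
    have hX1 : 1 ≤ X := (le_max_right _ _).trans hX
    refine le_trans ?_ (h1 X ((le_max_left _ _).trans hX) H hS h0 h0H A B hBX hAB)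
    apply mul_le_mul_of_nonneg_left (Vp_le t ht H hS.loc hX1)
    have hX0 : (0 : ℝ) ≤ X := Nat.cast_nonneg X
    have : 0 ≤ (B : ℝ) - A := le_trans (by positivity) hAB
    positivity
  · intro k θ δ hθ hδ
    obtain ⟨X₁, h1⟩ := h θ hθ
    obtain ⟨D, X₂, h2⟩ := Pool.Agent.Y843.HS.fin k (r + 1) (1 / (t : ℝ)) (δ * (c * θ)) (by positivity)
      (by positivity)
    refine ⟨D, max X₁ X₂, fun X hX H hS h0 h0H A B hBX hAB S hSG hSc => ?_⟩
    have h3 := h1 X ((le_max_left _ _).trans hX) H hS h0 h0H A B hBX hAB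
    have hX0 : (0 : ℝ) ≤ X := Nat.cast_nonneg X
    apply h2 X 0 ((le_max_right _ _).trans hX) (Z0 (OmH H))
    · intro p hp hpX
      refine ⟨?_, ?_, ?_⟩
      · have := OmH_le H p
        have h4 := hS.card
        have h5 := OmH_card H hp.pos
        rw [card_Z0 H hp.pos]
        omega
      · rw [card_Z0 H hp.pos]
        exact hS.loc p hp
      · intro x hx
        rw [Z0_OmH, mem_insert, mem_image] at hx
        rcases hx with rfl | ⟨y, _, rfl⟩
        · exact hp.pos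
        · exact hr_lt y hp.pos
    · intro n hn
      have h4 := hSG hn
      unfold Good at h4
      rw [mem_filter, mem_Ioc] at h4
      rw [mem_Ioc]
      omega
    · intro n hn p hp hpX hcon
      have h4 := hSG hn
      unfold Good at h4
      rw [mem_filter, mem_Ioc] at h4
      obtain ⟨-, n1, n2, -, n3⟩ := h4
      rw [Z0_OmH, mem_insert, mem_image] at hcon
      rcases hcon with h5 | ⟨y, hy, h5⟩
      · have h6 := (Nat.prime_dvd_prime_iff_eq hp n1).1 (Nat.dvd_of_mod_eq_zero h5)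
        rw [h6] at hpX
        linarith
      · have h6 : (p : ℤ) ∣ y - n := by
          have h7 : hr y p = hr (n : ℤ) p := by
            rw [Pool.Agent.Y843.CH.hr_nat n hp.pos]
            exact h5
          rw [hr_eq_iff _ _ hp.pos] at h7
          exact Int.modEq_iff_dvd.1 h7.symm
        have h8 := (n3 y hy).2.2 p hp h6
        linarith
    · refine le_trans ?_ hSc
      have hQ : 0 ≤ VV (Z0 (OmH H)) 0 ⌊(X : ℝ) ^ (1 / (t : ℝ))⌋₊ :=
        Pool.Agent.Y843.CH.VV_nonneg (dat hS.card hS.loc h0H).adm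
      calc δ * (c * θ) * X * VV (Z0 (OmH H)) 0 ⌊(X : ℝ) ^ (1 / (t : ℝ))⌋₊ =
            δ * (c * (θ * X) * VV (Z0 (OmH H)) 0 ⌊(X : ℝ) ^ (1 / (t : ℝ))⌋₊) := by ring
        _ ≤ δ * (c * ((B : ℝ) - A) * VV (Z0 (OmH H)) 0 ⌊(X : ℝ) ^ (1 / (t : ℝ))⌋₊) := by gcongr
        _ ≤ _ := by gcongr

end Pool.Agent.Y840.CT
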