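import Pool.Agent.Y840.CT.Low

/-!
# Chen's theorem with classes that depend on the prime modulus
-/

set_option autoImplicit false

namespace Pool.Agent.Y840.CT

open Finset Filter
open Pool.Agent.Y843.HS (Pr VV Pr_mem Pr_prime VV_split)
open Pool.Agent.Y843.HG (Adm Z0 SP V1 V1_bounds)
open Pool.Agent.Y843.CH (hr Dat GD hr_lt hr_cast hr_eq_iff hr_zero_iff)
open Pool.Agent.Y840.CI (GI chenI)

/-- the classes of the elements of `F q` modulo `q` -/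
def OmF (F : ℕ → Finset ℤ) (q : ℕ) : Finset ℕ := OmH (F q) q

theorem Z0_OmF (F : ℕ → Finset ℤ) (q : ℕ) : Z0 (OmF F) q = insert 0 ((F q).image (fun h => hr h q)) := by
  have h := Z0_OmH (F q) q
  unfold Z0 at h ⊢
  exact h

theorem card_Z0F (F : ℕ → Finset ℤ) {q : ℕ} (hq : 0 < q) : (Z0 (OmF F) q).card = rho (F q) q := by
  have h := card_Z0 (F q) hq
  unfold Z0 at h ⊢
  exact h

/-- the hypotheses: at most `r` shifts for each prime, one of them `h₀`, no local obstruction -/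
structure SysF (r X : ℕ) (F : ℕ → Finset ℤ) (h0 : ℤ) : Prop where
  card : ∀ q : ℕ, q.Prime → (F q).card ≤ r
  ne : h0 ≠ 0
  size : |h0| ≤ X
  mem : ∀ q : ℕ, q.Prime → h0 ∈ F q
  loc : ∀ q : ℕ, q.Prime → rho (F q) q < q

theorem datF {r X Y : ℕ} {F : ℕ → Finset ℤ} {h0 : ℤ} (S : SysF r X F h0) : Dat r Y h0 (OmF F) := by
  constructor
  · intro q hq
    have hqp := Pr_prime hq
    refine ⟨(OmH_le (F q) q).trans (S.card q hqp), ?_, ?_, ?_⟩
    · have h1 := OmH_card (F q) hqp.pos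
      unfold OmF
      rw [h1]
      exact S.loc q hqp
    · unfold OmF OmH
      simp
    · intro c hc
      unfold OmF OmH at hc
      rw [mem_erase, mem_image] at hc
      obtain ⟨_, h, _, rfl⟩ := hc
      exact hr_lt h hqp.pos
  · intro q hq
    rw [Z0_OmF]
    exact mem_insert_of_mem (mem_image_of_mem _ (S.mem q (Pr_prime hq)))

open Classical in
/-- the good primes of `(A, B]` -/
noncomputable def GoodF (t X A B : ℕ) (F : ℕ → Finset ℤ) (h0 : ℤ) : Finset ℕ :=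
  (Ioc A B).filter (fun p : ℕ => p.Prime ∧ (X : ℝ) ^ (1 / (t : ℝ)) < p ∧
    Rough 2 ((X : ℝ) ^ (1 / 9 : ℝ)) (h0 - p) ∧
    ∀ q : ℕ, q.Prime → (q : ℝ) ≤ (X : ℝ) ^ (1 / (t : ℝ)) → ∀ h ∈ F q, ¬ (q : ℤ) ∣ h - p)

/-- the sieve product -/
noncomputable def VF (F : ℕ → Finset ℤ) (X : ℕ) : ℝ :=
  ∏ q ∈ (Icc 1 X).filter Nat.Prime, (1 - (rho (F q) q : ℝ) / q)

theorem VF_eq (F : ℕ → Finset ℤ) (X : ℕ) : VF F X = VV (Z0 (OmF F)) 0 X := by
  unfold VF VV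
  apply prod_congr
  · ext q
    rw [Pr_mem, mem_filter, mem_Icc]
    constructor
    · rintro ⟨⟨a, b⟩, c⟩
      exact ⟨⟨c.pos, b⟩, c⟩
    · rintro ⟨⟨a, b⟩, c⟩
      exact ⟨⟨c.pos, b⟩, c⟩
  · intro q hq
    rw [card_Z0F F (Pr_prime hq).pos]

theorem VF_mono {F : ℕ → Finset ℤ} (hloc : ∀ q : ℕ, q.Prime → rho (F q) q < q) {Y X : ℕ} (hYX : Y ≤ X) :
    VF F X ≤ VF F Y ∧ 0 ≤ VF F X := by
  have h0 : ∀ q : ℕ, q.Prime → 0 ≤ 1 - ((Z0 (OmF F) q).card : ℝ) / q := by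
    intro q hq
    have h2 : (0 : ℝ) < q := by exact_mod_cast hq.pos
    rw [sub_nonneg, div_le_one h2, card_Z0F F hq.pos]
    exact_mod_cast (hloc q hq).le
  have h2 : ∀ X : ℕ, 0 ≤ VV (Z0 (OmF F)) 0 X := fun X => prod_nonneg fun q hq => h0 q (Pr_prime hq)
  rw [VF_eq, VF_eq]
  refine ⟨?_, h2 X⟩
  rw [← VV_split (Z0 (OmF F)) (Nat.zero_le Y) hYX]
  have h3 : VV (Z0 (OmF F)) Y X ≤ 1 := by
    unfold VV
    apply prod_le_one
    · intro q hq
      exact h0 q (Pr_prime hq)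
    · intro q hq
      have : (0 : ℝ) ≤ ((Z0 (OmF F) q).card : ℝ) / q := by positivity
      linarith
  exact mul_le_of_le_one_right (h2 Y) h3

/-- the comparison of the scales -/
theorem ninth : ∀ᶠ X : ℕ in atTop, (X : ℝ) ^ (1 / 9 : ℝ) < (Nat.sqrt X : ℝ) ^ (1 / 4 : ℝ) := by
  have h1 : ∀ᶠ X : ℕ in atTop, (2 : ℝ) < (X : ℝ) ^ (1 / 18 : ℝ) :=
    ((tendsto_rpow_atTop (show (0 : ℝ) < 1 / 18 by norm_num)).comp
      tendsto_natCast_atTop_atTop).eventually (eventually_gt_atTop 2)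
  filter_upwards [h1, eventually_ge_atTop 1] with X hX hX1
  have hX0 : (0 : ℝ) < X := by exact_mod_cast hX1
  have h2 : (X : ℝ) ^ (4 / 9 : ℝ) < Nat.sqrt X := by
    have h3 : (X : ℝ) < ((Nat.sqrt X : ℝ) + 1) ^ 2 := by
      have := Nat.lt_succ_sqrt' X
      exact_mod_cast this
    have h4 : (X : ℝ) ^ (1 / 2 : ℝ) < Nat.sqrt X + 1 := by
      have h5 := Real.rpow_lt_rpow hX0.le h3 (show (0 : ℝ) < 1 / 2 by norm_num)
      rwa [← Real.rpow_natCast, ← Real.rpow_mul (by positivity), show ((2 : ℕ) : ℝ) * (1 / 2) = 1 by norm_num,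
        Real.rpow_one] at h5
    have h5 : (X : ℝ) ^ (1 / 2 : ℝ) = (X : ℝ) ^ (4 / 9 : ℝ) * (X : ℝ) ^ (1 / 18 : ℝ) := by
      rw [← Real.rpow_add hX0]
      norm_num
    have h6 : (1 : ℝ) ≤ (X : ℝ) ^ (4 / 9 : ℝ) := Real.one_le_rpow (by exact_mod_cast hX1) (by norm_num)
    nlinarith
  have h3 := Real.rpow_lt_rpow (by positivity) h2 (show (0 : ℝ) < 1 / 4 by norm_num)
  rwa [← Real.rpow_mul hX0.le, show (4 / 9 : ℝ) * (1 / 4) = 1 / 9 by norm_num] at h3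

/-- **Chen's theorem in intervals with classes that depend on the prime modulus**, and narrow
progressions in the dense subsets. -/
theorem genF (r : ℕ) : ∃ t : ℕ, 1 ≤ t ∧ ∃ c : ℝ, 0 < c ∧
    (∀ θ : ℝ, 0 < θ → ∃ X₀ : ℕ, ∀ X : ℕ, X₀ ≤ X → ∀ F : ℕ → Finset ℤ, ∀ h0 : ℤ, SysF r X F h0 →
      ∀ A B : ℕ, B ≤ X → θ * X ≤ (B : ℝ) - A →
      c * ((B : ℝ) - A) * VF F X ≤ ((GoodF t X A B F h0).card : ℝ)) ∧
    (∀ k : ℕ, ∀ θ δ : ℝ, 0 < θ → 0 < δ → ∃ D X₀ : ℕ, ∀ X : ℕ, X₀ ≤ X → ∀ F : ℕ → Finset ℤ, ∀ h0 : ℤ,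
      SysF r X F h0 → ∀ A B : ℕ, B ≤ X → θ * X ≤ (B : ℝ) - A →
      ∀ S : Finset ℕ, S ⊆ GoodF t X A B F h0 → δ * ((GoodF t X A B F h0).card : ℝ) ≤ S.card →
        ∃ a d : ℕ, 1 ≤ d ∧ (d : ℝ) ≤ Real.log X ^ D ∧ ∀ j < k, a + j * d ∈ S) := by
  classical
  obtain ⟨t, ht, c, hc, hch'⟩ := chenI r
  have ht0 : (0 : ℝ) < t := by exact_mod_cast ht
  obtain ⟨X₁, h1⟩ := eventually_atTop.1 ninth
  -- the bound with the sieve product up to `X ^ (1/t)`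
  have key : ∀ θ : ℝ, 0 < θ → ∃ X₀ : ℕ, ∀ X : ℕ, X₀ ≤ X → ∀ F : ℕ → Finset ℤ, ∀ h0 : ℤ, SysF r X F h0 →
      ∀ A B : ℕ, B ≤ X → θ * X ≤ (B : ℝ) - A →
      c * ((B : ℝ) - A) * VF F ⌊(X : ℝ) ^ (1 / (t : ℝ))⌋₊ ≤ ((GoodF t X A B F h0).card : ℝ) := by
    intro θ hθ
    obtain ⟨X₀, hch⟩ := hch' θ hθ
    refine ⟨max X₀ X₁, ?_⟩
    intro X hX F h0 S A B hBX hAB
    have g2 := h1 X (le_trans (le_max_right _ _) hX)
    set Y := ⌊(X : ℝ) ^ (1 / (t : ℝ))⌋₊ with hY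
    have h2 : c * ((B : ℝ) - A) * VV (Z0 (OmF F)) 0 Y ≤ ((GI A B (Nat.sqrt X) X Y h0 (OmF F)).card : ℝ) := by
      apply hch X (le_trans (le_max_left _ _) hX) h0 S.ne _ _ (datF S) A B hBX hAB
      have := S.size
      rw [Int.abs_eq_natAbs] at this
      exact_mod_cast this
    rw [VF_eq]
    refine h2.trans ?_
    rw [Nat.cast_le]
    apply card_le_card
    intro p hp
    unfold GI GD SP at hp
    rw [mem_filter, mem_filter, mem_filter, mem_Ioc] at hp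
    obtain ⟨⟨⟨⟨p1, p2⟩, p3, p4⟩, p5, p6, p7⟩, pA, pB⟩ := hp
    unfold GoodF
    rw [mem_filter, mem_Ioc]
    refine ⟨⟨pA, pB⟩, p3, ?_, ⟨sub_ne_zero.2 p5, p6, ?_⟩, ?_⟩
    · by_contra hcon
      push Not at hcon
      have hqY : p ≤ Y := Nat.le_floor hcon
      have h3 := p4 p (Pr_mem.2 ⟨⟨p3.pos, hqY⟩, p3⟩)
      apply h3
      rw [Z0_OmF, Nat.mod_self]
      exact mem_insert_self _ _
    · intro q hq hd
      have h3 := p7 q hq (Int.natCast_dvd.1 hd)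
      linarith
    · intro q hq hqX h hh hd
      have hqY : q ≤ Y := Nat.le_floor hqX
      have h3 := p4 q (Pr_mem.2 ⟨⟨hq.pos, hqY⟩, hq⟩)
      apply h3
      rw [Z0_OmF]
      apply mem_insert_of_mem
      rw [mem_image]
      refine ⟨h, hh, ?_⟩
      have h4 : hr h q = hr (p : ℤ) q := by
        rw [hr_eq_iff _ _ hq.pos]
        exact (Int.modEq_iff_dvd.2 hd).symm
      rw [h4, Pool.Agent.Y843.CH.hr_nat p hq.pos]
  have hfl : ∀ X : ℕ, 1 ≤ X → ⌊(X : ℝ) ^ (1 / (t : ℝ))⌋₊ ≤ X := by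
    intro X hX
    have hXr : (1 : ℝ) ≤ X := by exact_mod_cast hX
    have h2 : (X : ℝ) ^ (1 / (t : ℝ)) ≤ X := by
      have := Real.rpow_le_rpow_of_exponent_le hXr (show 1 / (t : ℝ) ≤ 1 by
        rw [div_le_one ht0]
        exact_mod_cast ht)
      rwa [Real.rpow_one] at this
    have := Nat.floor_le_floor h2
    rwa [Nat.floor_natCast] at this
  refine ⟨t, ht, c, hc, ?_, ?_⟩
  · intro θ hθ
    obtain ⟨X₀, h2⟩ := key θ hθ
    refine ⟨max X₀ 1, fun X hX F h0 S A B hBX hAB => ?_⟩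
    refine le_trans ?_ (h2 X ((le_max_left _ _).trans hX) F h0 S A B hBX hAB)
    apply mul_le_mul_of_nonneg_left (VF_mono S.loc (hfl X ((le_max_right _ _).trans hX))).1
    have hX0 : (0 : ℝ) ≤ X := Nat.cast_nonneg X
    have : 0 ≤ (B : ℝ) - A := le_trans (by positivity) hAB
    positivity
  · intro k θ δ hθ hδ
    obtain ⟨X₁, h1⟩ := key θ hθ
    obtain ⟨D, X₂, h2⟩ := Pool.Agent.Y843.HS.fin k (r + 1) (1 / (t : ℝ)) (δ * (c * θ)) (by positivity)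
      (by positivity)
    refine ⟨D, max X₁ X₂, fun X hX F h0 S' A B hBX hAB S hSG hSc => ?_⟩
    have h3 := h1 X ((le_max_left _ _).trans hX) F h0 S' A B hBX hAB
    have hX0 : (0 : ℝ) ≤ X := Nat.cast_nonneg X
    have hQ : 0 ≤ VV (Z0 (OmF F)) 0 ⌊(X : ℝ) ^ (1 / (t : ℝ))⌋₊ := by
      rw [← VF_eq]
      exact (VF_mono S'.loc le_rfl).2
    apply h2 X 0 ((le_max_right _ _).trans hX) (Z0 (OmF F))
    · intro p hp hpX
      refine ⟨?_, ?_, ?_⟩
      · have := OmH_le (F p) p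
        have h4 := S'.card p hp
        have h5 := OmH_card (F p) hp.pos
        rw [card_Z0F F hp.pos]
        omega
      · rw [card_Z0F F hp.pos]
        exact S'.loc p hp
      · intro x hx
        rw [Z0_OmF, mem_insert, mem_image] at hx
        rcases hx with rfl | ⟨y, _, rfl⟩
        · exact hp.pos
        · exact hr_lt y hp.pos
    · intro n hn
      have h4 := hSG hn
      unfold GoodF at h4
      rw [mem_filter, mem_Ioc] at h4
      rw [mem_Ioc]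
      omega
    · intro n hn p hp hpX hcon
      have h4 := hSG hn
      unfold GoodF at h4
      rw [mem_filter, mem_Ioc] at h4
      obtain ⟨-, n1, n2, -, n3⟩ := h4
      rw [Z0_OmF, mem_insert, mem_image] at hcon
      rcases hcon with h5 | ⟨y, hy, h5⟩
      · have h6 := (Nat.prime_dvd_prime_iff_eq hp n1).1 (Nat.dvd_of_mod_eq_zero h5)
        rw [h6] at hpX
        linarith
      · have h6 : (p : ℤ) ∣ y - n := by
          have h7 : hr y p = hr (n : ℤ) p := by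
            rw [Pool.Agent.Y843.CH.hr_nat n hp.pos]
            exact h5
          rw [hr_eq_iff _ _ hp.pos] at h7
          exact Int.modEq_iff_dvd.1 h7.symm
        exact n3 p hp hpX y hy h6
    · refine le_trans ?_ hSc
      rw [VF_eq] at h3
      calc δ * (c * θ) * X * VV (Z0 (OmF F)) 0 ⌊(X : ℝ) ^ (1 / (t : ℝ))⌋₊ =
            δ * (c * (θ * X) * VV (Z0 (OmF F)) 0 ⌊(X : ℝ) ^ (1 / (t : ℝ))⌋₊) := by ring
        _ ≤ δ * (c * ((B : ℝ) - A) * VV (Z0 (OmF F)) 0 ⌊(X : ℝ) ^ (1 / (t : ℝ))⌋₊) := by gcongr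
        _ ≤ _ := by gcongr

end Pool.Agent.Y840.CT
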