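import Pool.Agent.Y840.CT.Gen

/-!
# The sieve product from below, with the right power of the logarithm
-/

set_option autoImplicit false

namespace Pool.Agent.Y840.CT

open Finset Filter
open Pool.Agent.Y843.HS (Pr VV Pr_mem Pr_prime VV_split)
open Pool.Agent.Y843.HG (Adm Z0 SP V1 V1_bounds)

theorem prod_one_sub_ge (S : Finset ℕ) (f : ℕ → ℝ) (h : ∀ p ∈ S, 0 ≤ f p ∧ f p ≤ 1) :
    1 - ∑ p ∈ S, f p ≤ ∏ p ∈ S, (1 - f p) := by
  classical
  induction S using Finset.induction_on with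
  | empty => simp
  | insert q S hq ih =>
    rw [sum_insert hq, prod_insert hq]
    have h1 := ih fun p hp => h p (mem_insert_of_mem hp)
    have h2 := h q (mem_insert_self _ _)
    have h3 : ∏ p ∈ S, (1 - f p) ≤ 1 := prod_le_one
      (fun p hp => by linarith [(h p (mem_insert_of_mem hp)).2])
      (fun p hp => by linarith [(h p (mem_insert_of_mem hp)).1])
    nlinarith [h2.1, h2.2]

theorem V1_pos (y : ℕ) : 0 < V1 y := Pool.Agent.Y843.CH.V1_pos y

theorem one_sub_ge {κ : ℕ} {p : ℝ} (hp : 1 < p) (hκ : (κ : ℝ) ≤ p) :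
    (1 - (κ : ℝ) ^ 2 * (p ^ 2)⁻¹) * (1 - 1 / p) ^ κ ≤ 1 - κ / p := by
  have hp0 : 0 < p := by linarith
  have hx : 0 < 1 - 1 / p := by rw [sub_pos, div_lt_one hp0]; exact hp
  have h1 : (1 - 1 / p) ^ κ * (1 + κ / p) ≤ 1 := by
    have h2 : 1 + (κ : ℝ) * (1 / p) ≤ (1 + 1 / p) ^ κ := one_add_mul_le_pow (by
      have : 0 < 1 / p := by positivity
      linarith) κ
    have h3 : (1 - 1 / p) ^ κ * (1 + 1 / p) ^ κ ≤ 1 := by
      rw [← mul_pow]
      apply pow_le_one₀
      · have : 0 < 1 / p := by positivity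
        exact mul_nonneg hx.le (by linarith)
      · have : (1 - 1 / p) * (1 + 1 / p) = 1 - (1 / p) ^ 2 := by ring
        rw [this]
        have : 0 ≤ (1 / p) ^ 2 := by positivity
        linarith
    calc (1 - 1 / p) ^ κ * (1 + κ / p) = (1 - 1 / p) ^ κ * (1 + (κ : ℝ) * (1 / p)) := by ring
      _ ≤ (1 - 1 / p) ^ κ * (1 + 1 / p) ^ κ := mul_le_mul_of_nonneg_left h2 (by positivity)
      _ ≤ 1 := h3
  have h4 : (1 - (κ : ℝ) ^ 2 * (p ^ 2)⁻¹) = (1 - κ / p) * (1 + κ / p) := by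
    field_simp
    ring
  rw [h4]
  have h5 : 0 ≤ 1 - (κ : ℝ) / p := by
    rw [sub_nonneg, div_le_one hp0]
    exact hκ
  calc (1 - (κ : ℝ) / p) * (1 + κ / p) * (1 - 1 / p) ^ κ =
        (1 - (κ : ℝ) / p) * ((1 - 1 / p) ^ κ * (1 + κ / p)) := by ring
    _ ≤ (1 - (κ : ℝ) / p) * 1 := mul_le_mul_of_nonneg_left h1 h5
    _ = _ := by ring

theorem Vp_eq (H : Finset ℤ) (X : ℕ) : Vp H X = VV (Z0 (OmH H)) 0 X := by
  unfold Vp VV
  apply prod_congr
  · ext q
    rw [Pr_mem, mem_filter, mem_Icc]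
    constructor
    · rintro ⟨⟨a, b⟩, c⟩
      exact ⟨⟨c.pos, b⟩, c⟩
    · rintro ⟨⟨a, b⟩, c⟩
      exact ⟨⟨c.pos, b⟩, c⟩
  · intro q hq
    rw [card_Z0 H (Pr_prime hq).pos]

/-- the sieve product has at least the order `1 / log ^ (r + 1) X` -/
theorem Vp_low (r : ℕ) : ∃ c : ℝ, 0 < c ∧ ∀ X : ℕ, 2 ≤ X → ∀ H : Finset ℤ, H.card ≤ r →
    (∀ q : ℕ, q.Prime → rho H q < q) → c / Real.log X ^ (r + 1) ≤ Vp H X := by
  classical
  obtain ⟨c, C, hc, hC, hV⟩ := V1_bounds
  obtain ⟨z, hz⟩ : ∃ z : ℕ, z = 2 * (r + 1) ^ 2 := ⟨_, rfl⟩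
  have hfac : (0 : ℝ) < ∏ p ∈ Pr 0 z, (1 / (p : ℝ)) := prod_pos fun p hp => by
    have : (0 : ℝ) < p := by exact_mod_cast (Pr_prime hp).pos
    positivity
  refine ⟨(∏ p ∈ Pr 0 z, (1 / (p : ℝ))) * (1 / 2) * c ^ (r + 1), by positivity, ?_⟩
  intro X hX H hH hloc
  have hlX : 0 < Real.log X := Real.log_pos (by exact_mod_cast (by omega : 1 < X))
  have hρ : ∀ q : ℕ, q.Prime → (rho H q : ℝ) ≤ ((r + 1 : ℕ) : ℝ) := by
    intro q hq
    have h1 := OmH_card H hq.pos
    have h2 := OmH_le H q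
    exact_mod_cast (by omega : rho H q ≤ r + 1)
  have hfn : ∀ q : ℕ, q.Prime → 1 / (q : ℝ) ≤ 1 - (rho H q : ℝ) / q := by
    intro q hq
    have h0 : (0 : ℝ) < q := by exact_mod_cast hq.pos
    have h1 : (rho H q : ℝ) + 1 ≤ q := by exact_mod_cast hloc q hq
    rw [le_sub_iff_add_le, ← add_div, div_le_one h0]
    linarith
  -- split the product
  have hsp : Vp H X = (∏ p ∈ (Pr 0 X).filter (fun p => p ≤ z), (1 - (rho H p : ℝ) / p)) *
      ∏ p ∈ (Pr 0 X).filter (fun p => ¬ p ≤ z), (1 - (rho H p : ℝ) / p) := by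
    rw [prod_filter_mul_prod_filter_not, Vp_eq]
    unfold VV
    apply prod_congr rfl
    intro q hq
    rw [card_Z0 H (Pr_prime hq).pos]
  have hA : ∏ p ∈ Pr 0 z, (1 / (p : ℝ)) ≤
      ∏ p ∈ (Pr 0 X).filter (fun p => p ≤ z), (1 - (rho H p : ℝ) / p) := by
    have hs : (Pr 0 X).filter (fun p => p ≤ z) ⊆ Pr 0 z := by
      intro p hp
      rw [mem_filter, Pr_mem] at hp
      exact Pr_mem.2 ⟨⟨hp.1.1.1, hp.2⟩, hp.1.2⟩
    calc ∏ p ∈ Pr 0 z, (1 / (p : ℝ)) ≤ ∏ p ∈ (Pr 0 X).filter (fun p => p ≤ z), (1 / (p : ℝ)) := by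
          rw [← prod_sdiff hs]
          apply mul_le_of_le_one_left
          · exact prod_nonneg fun p _ => by positivity
          · apply prod_le_one
            · intro p _
              positivity
            · intro p hp
              have h1 : (1 : ℝ) ≤ p := by exact_mod_cast (Pr_prime (mem_sdiff.1 hp).1).one_lt.le
              rw [div_le_one (by linarith)]
              exact h1
      _ ≤ _ := Finset.prod_le_prod (fun p _ => by positivity) fun p hp =>
          hfn p (Pr_prime (mem_filter.1 hp).1)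
  have hB : 1 / 2 * V1 X ^ (r + 1) ≤ ∏ p ∈ (Pr 0 X).filter (fun p => ¬ p ≤ z), (1 - (rho H p : ℝ) / p) := by
    have hκz : (r + 1) ≤ z := by rw [hz]; nlinarith
    have h1 : ∏ p ∈ (Pr 0 X).filter (fun p => ¬ p ≤ z), ((1 - (((r + 1 : ℕ) : ℝ)) ^ 2 * ((p : ℝ) ^ 2)⁻¹) *
        (1 - 1 / (p : ℝ)) ^ (r + 1)) ≤ ∏ p ∈ (Pr 0 X).filter (fun p => ¬ p ≤ z), (1 - (rho H p : ℝ) / p) := by
      apply Finset.prod_le_prod
      · intro p hp
        rw [mem_filter] at hp
        have hp1 : (1 : ℝ) < p := by exact_mod_cast (Pr_prime hp.1).one_lt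
        have hpz : (((r + 1 : ℕ) : ℝ)) ≤ p := by exact_mod_cast (by omega : r + 1 ≤ p)
        apply mul_nonneg
        · rw [sub_nonneg, ← div_eq_mul_inv, div_le_one (by positivity)]
          exact pow_le_pow_left₀ (by positivity) hpz 2
        · apply pow_nonneg
          rw [sub_nonneg, div_le_one (by linarith)]
          exact hp1.le
      · intro p hp
        rw [mem_filter] at hp
        have hp1 : (1 : ℝ) < p := by exact_mod_cast (Pr_prime hp.1).one_lt
        have hpz : (((r + 1 : ℕ) : ℝ)) ≤ p := by exact_mod_cast (by omega : r + 1 ≤ p)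
        refine (one_sub_ge hp1 hpz).trans ?_
        have := hρ p (Pr_prime hp.1)
        have h2 : (rho H p : ℝ) / p ≤ ((r + 1 : ℕ) : ℝ) / p := by gcongr
        linarith
    refine le_trans ?_ h1
    rw [prod_mul_distrib, prod_pow]
    have h2 : (1 / 2 : ℝ) ≤ ∏ p ∈ (Pr 0 X).filter (fun p => ¬ p ≤ z), (1 - (((r + 1 : ℕ) : ℝ)) ^ 2 * ((p : ℝ) ^ 2)⁻¹) := by
      refine le_trans ?_ (prod_one_sub_ge _ _ ?_)
      · rw [← mul_sum]
        have h3 : ∑ p ∈ (Pr 0 X).filter (fun p => ¬ p ≤ z), ((p : ℝ) ^ 2)⁻¹ ≤ ((z : ℝ))⁻¹ := by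
          rcases Nat.lt_or_ge X z with hXz | hXz
          · rw [sum_eq_zero]
            · positivity
            · intro p hp
              rw [mem_filter, Pr_mem] at hp
              omega
          · calc ∑ p ∈ (Pr 0 X).filter (fun p => ¬ p ≤ z), ((p : ℝ) ^ 2)⁻¹ ≤
                  ∑ p ∈ Ioc z X, ((p : ℝ) ^ 2)⁻¹ := by
                  apply sum_le_sum_of_subset_of_nonneg
                  · intro p hp
                    rw [mem_filter, Pr_mem] at hp
                    rw [mem_Ioc]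
                    omega
                  · intro p _ _
                    positivity
              _ ≤ (z : ℝ)⁻¹ - (X : ℝ)⁻¹ := sum_Ioc_inv_sq_le_sub (by rw [hz]; positivity) hXz
              _ ≤ _ := by
                  have : (0 : ℝ) ≤ (X : ℝ)⁻¹ := by positivity
                  linarith
        have h4 : (((r + 1 : ℕ) : ℝ)) ^ 2 * ((z : ℝ))⁻¹ = 1 / 2 := by
          rw [hz]
          push_cast
          have : (0 : ℝ) < (r : ℝ) + 1 := by positivity
          field_simp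
        have h5 : (((r + 1 : ℕ) : ℝ)) ^ 2 * ∑ p ∈ (Pr 0 X).filter (fun p => ¬ p ≤ z), ((p : ℝ) ^ 2)⁻¹ ≤
            (((r + 1 : ℕ) : ℝ)) ^ 2 * ((z : ℝ))⁻¹ := by gcongr
        linarith
      · intro p hp
        rw [mem_filter] at hp
        have hpz : (((r + 1 : ℕ) : ℝ)) ≤ p := by exact_mod_cast (by omega : r + 1 ≤ p)
        have hp0 : (0 : ℝ) < p := by exact_mod_cast (Pr_prime hp.1).pos
        refine ⟨by positivity, ?_⟩
        rw [← div_eq_mul_inv, div_le_one (by positivity)]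
        exact pow_le_pow_left₀ (by positivity) hpz 2
    have h3 : V1 X ≤ ∏ p ∈ (Pr 0 X).filter (fun p => ¬ p ≤ z), (1 - 1 / (p : ℝ)) := by
      unfold V1
      rw [← prod_filter_mul_prod_filter_not (Pr 0 X) (fun p => p ≤ z)]
      apply mul_le_of_le_one_left
      · apply prod_nonneg
        intro p hp
        have hp1 : (1 : ℝ) < p := by exact_mod_cast (Pr_prime (mem_filter.1 hp).1).one_lt
        rw [sub_nonneg, div_le_one (by linarith)]
        exact hp1.le
      · apply prod_le_one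
        · intro p hp
          have hp1 : (1 : ℝ) < p := by exact_mod_cast (Pr_prime (mem_filter.1 hp).1).one_lt
          rw [sub_nonneg, div_le_one (by linarith)]
          exact hp1.le
        · intro p hp
          have hp1 : (0 : ℝ) < p := by exact_mod_cast (Pr_prime (mem_filter.1 hp).1).pos
          have : 0 ≤ 1 / (p : ℝ) := by positivity
          linarith
    have h4 := V1_pos X
    calc 1 / 2 * V1 X ^ (r + 1) ≤ (∏ p ∈ (Pr 0 X).filter (fun p => ¬ p ≤ z),
          (1 - (((r + 1 : ℕ) : ℝ)) ^ 2 * ((p : ℝ) ^ 2)⁻¹)) * V1 X ^ (r + 1) :=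
          mul_le_mul_of_nonneg_right h2 (by positivity)
      _ ≤ _ := by
          apply mul_le_mul_of_nonneg_left (pow_le_pow_left₀ h4.le h3 _)
          linarith
  rw [hsp]
  have hV1 := (hV X hX).1
  have h4 : c ^ (r + 1) / Real.log X ^ (r + 1) ≤ V1 X ^ (r + 1) := by
    rw [← div_pow]
    exact pow_le_pow_left₀ (by positivity) hV1 _
  calc (∏ p ∈ Pr 0 z, (1 / (p : ℝ))) * (1 / 2) * c ^ (r + 1) / Real.log X ^ (r + 1) =
        (∏ p ∈ Pr 0 z, (1 / (p : ℝ))) * (1 / 2 * (c ^ (r + 1) / Real.log X ^ (r + 1))) := by ring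
    _ ≤ (∏ p ∈ Pr 0 z, (1 / (p : ℝ))) * (1 / 2 * V1 X ^ (r + 1)) := by gcongr
    _ ≤ _ := mul_le_mul hA hB (by
        have := V1_pos X
        positivity) (le_trans hfac.le hA)

end Pool.Agent.Y840.CT
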